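import Mathlib

set_option autoImplicit false

namespace Pool.Agent.V1146.TB

/-- append a last coordinate -/
def zc {n : ℕ} (u : Fin n → ℕ) (h : ℕ) : Fin (n + 1) → ℕ := Fin.snoc (α := fun _ => ℕ) u h

/-- the columns -/
def cols (n M : ℕ) : Finset (Fin n → ℕ) := Fintype.piFinset fun _ => Finset.range M

theorem mem_cols {n M : ℕ} {u : Fin n → ℕ} : u ∈ cols n M ↔ ∀ k, u k < M := by
  simp [cols]

theorem card_cols (n M : ℕ) : (cols n M).card = M ^ n := by
  simp [cols]

theorem zc_mem {n M : ℕ} {u : Fin n → ℕ} {h : ℕ} (hu : u ∈ cols n M) (hh : h < M) :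
    zc u h ∈ cols (n + 1) M := by
  rw [mem_cols] at hu ⊢
  intro k
  refine Fin.lastCases ?_ (fun k => ?_) k
  · simp [zc, hh]
  · simp [zc, hu k]

/-- integer form of: the cell `z` is near a line -/
def Near {n : ℕ} (M : ℕ) (i : Fin (n + 1)) (s r : Fin (n + 1) → ℤ) (z : Fin (n + 1) → ℕ) : Prop :=
  ∀ k, k ≠ i → |(M : ℤ) * z k - M * r k - z i * s k| ≤ 6 * M

open Classical in
theorem card_near {n M : ℕ} (hM : 0 < M) (i : Fin (n + 1)) (s r : Fin (n + 1) → ℤ) :
    ((cols (n + 1) M).filter (Near M i s r)).card ≤ M * 13 ^ (n + 1) := by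
  have hM' : (0 : ℤ) < M := by exact_mod_cast hM
  set T : Finset (ℕ × (Fin (n + 1) → ℤ)) :=
    Finset.range M ×ˢ Fintype.piFinset (fun _ : Fin (n + 1) => Finset.Icc (-6 : ℤ) 6) with hT
  have hcard : T.card = M * 13 ^ (n + 1) := by
    rw [hT, Finset.card_product, Finset.card_range, Fintype.card_piFinset]
    simp
  rw [← hcard]
  set F : (Fin (n + 1) → ℕ) → ℕ × (Fin (n + 1) → ℤ) := fun z =>
    (z i, fun k => if k = i then 0 else (z k : ℤ) - (M * r k + z i * s k) / M) with hF
  apply Finset.card_le_card_of_injOn F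
  · intro z hz
    rw [Finset.mem_coe, Finset.mem_filter, mem_cols] at hz
    obtain ⟨hz1, hz2⟩ := hz
    rw [Finset.mem_coe, hT, Finset.mem_product]
    refine ⟨Finset.mem_range.mpr (hz1 i), ?_⟩
    rw [Fintype.mem_piFinset]
    intro k
    rw [hF]
    simp only
    split_ifs with hk
    · simp
    · have h1 := hz2 k hk
      rw [abs_le] at h1
      set c : ℤ := M * r k + z i * s k with hc
      have h2 := Int.emod_add_mul_ediv c M
      have h3 := Int.emod_nonneg c hM'.ne'
      have h4 := Int.emod_lt_of_pos c hM'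
      rw [Finset.mem_Icc]
      constructor
      · by_contra h
        push Not at h
        have : (z k : ℤ) - c / M ≤ -7 := by omega
        nlinarith
      · by_contra h
        push Not at h
        have : 7 ≤ (z k : ℤ) - c / M := by omega
        nlinarith
  · intro z _ z' _ h
    rw [hF] at h
    simp only [Prod.mk.injEq] at h
    obtain ⟨h1, h2⟩ := h
    funext k
    by_cases hk : k = i
    · rw [hk]; exact h1
    · have h3 := congrFun h2 k
      simp only [if_neg hk, h1] at h3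
      have : (z k : ℤ) = z' k := by linarith
      exact_mod_cast this

open Classical in
/-- number of near cells of the digit pattern `g` -/
noncomputable def cnt {n : ℕ} (M : ℕ) (g : cols n M → ℕ) (i : Fin (n + 1))
    (s r : Fin (n + 1) → ℤ) : ℕ :=
  (Finset.univ.filter fun u : cols n M => Near M i s r (zc u.1 (g u))).card

open Classical in
/-- exponential moment for one parameter -/
theorem moment {n M : ℕ} (hM : 0 < M) (i : Fin (n + 1)) (s r : Fin (n + 1) → ℤ) :
    ∑ g ∈ Fintype.piFinset (fun _ : cols n M => Finset.range M),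
      Real.exp (cnt M g i s r : ℝ) ≤
    (M : ℝ) ^ (cols n M).card * Real.exp (2 * 13 ^ (n + 1)) := by
  have hMr : (0 : ℝ) < M := by exact_mod_cast hM
  set F : cols n M → ℕ → ℝ := fun u h => if Near M i s r (zc u.1 h) then Real.exp 1 else 1 with hF
  have h1 : ∀ g : cols n M → ℕ, Real.exp (cnt M g i s r : ℝ) = ∏ u, F u (g u) := by
    intro g
    rw [hF, cnt]
    simp only
    rw [Finset.prod_ite, Finset.prod_const, Finset.prod_const_one, mul_one, ← Real.exp_nat_mul,
      mul_one]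
  simp only [h1]
  rw [← Finset.prod_univ_sum]
  set S : cols n M → Finset ℕ := fun u => (Finset.range M).filter fun h => Near M i s r (zc u.1 h)
    with hS
  have h2 : ∀ u : cols n M, ∑ h ∈ Finset.range M, F u h ≤
      M * Real.exp (2 * ((S u).card : ℝ) / M) := by
    intro u
    have h3 : ∑ h ∈ Finset.range M, F u h = M + (Real.exp 1 - 1) * ((S u).card : ℝ) := by
      have h4 : ∀ h ∈ Finset.range M, F u h =
          1 + (Real.exp 1 - 1) * (if Near M i s r (zc u.1 h) then 1 else 0) := by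
        intro h _
        rw [hF]
        simp only
        split_ifs <;> ring
      rw [Finset.sum_congr rfl h4, Finset.sum_add_distrib, ← Finset.mul_sum, Finset.sum_boole]
      simp [hS]
    rw [h3]
    have h5 : Real.exp 1 - 1 ≤ 2 := by
      have := Real.exp_one_lt_d9
      linarith
    have h6 : 2 * ((S u).card : ℝ) / M + 1 ≤ Real.exp (2 * ((S u).card : ℝ) / M) :=
      Real.add_one_le_exp _
    have h7 : (M : ℝ) * (2 * ((S u).card : ℝ) / M + 1) ≤
        M * Real.exp (2 * ((S u).card : ℝ) / M) := mul_le_mul_of_nonneg_left h6 hMr.le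
    have h8 : (M : ℝ) * (2 * ((S u).card : ℝ) / M + 1) = M + 2 * ((S u).card : ℝ) := by
      field_simp
      ring
    have h9 : (0 : ℝ) ≤ (S u).card := Nat.cast_nonneg _
    nlinarith
  have h10 : ∏ u : cols n M, ∑ h ∈ Finset.range M, F u h ≤
      ∏ u : cols n M, ((M : ℝ) * Real.exp (2 * ((S u).card : ℝ) / M)) := by
    apply Finset.prod_le_prod
    · intro u _
      apply Finset.sum_nonneg
      intro h _
      rw [hF]
      simp only
      split_ifs
      · positivity
      · norm_num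
    · intro u _
      exact h2 u
  refine h10.trans ?_
  rw [Finset.prod_mul_distrib, Finset.prod_const, ← Real.exp_sum, Finset.card_univ,
    Fintype.card_coe]
  apply mul_le_mul_of_nonneg_left _ (by positivity)
  apply Real.exp_le_exp.mpr
  have h11 : ∑ u : cols n M, 2 * ((S u).card : ℝ) / M = 2 / M * ∑ u : cols n M, ((S u).card : ℝ) := by
    rw [Finset.mul_sum]
    apply Finset.sum_congr rfl
    intro u _
    ring
  rw [h11]
  have h12 : (∑ u : cols n M, ((S u).card : ℝ)) ≤ M * 13 ^ (n + 1) := by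
    have h13 : ∑ u : cols n M, (S u).card ≤ ((cols (n + 1) M).filter (Near M i s r)).card := by
      rw [← Finset.card_sigma]
      apply Finset.card_le_card_of_injOn (fun p => zc p.1.1 p.2)
      · intro p hp
        rw [Finset.mem_coe, Finset.mem_sigma] at hp
        have hp2 := hp.2
        rw [hS] at hp2
        simp only [Finset.mem_filter, Finset.mem_range] at hp2
        rw [Finset.mem_coe, Finset.mem_filter]
        exact ⟨zc_mem p.1.2 hp2.1, hp2.2⟩
      · rintro ⟨⟨u, hu⟩, h⟩ _ ⟨⟨u', hu'⟩, h'⟩ _ he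
        simp only at he
        have e1 : u = u' := by
          funext k
          have := congrFun he k.castSucc
          simpa [zc] using this
        have e2 : h = h' := by
          have := congrFun he (Fin.last n)
          simpa [zc] using this
        subst e1 e2
        rfl
    have h14 := h13.trans (card_near hM i s r)
    exact_mod_cast h14
  calc 2 / (M : ℝ) * ∑ u : cols n M, ((S u).card : ℝ) ≤ 2 / M * (M * 13 ^ (n + 1)) :=
        mul_le_mul_of_nonneg_left h12 (by positivity)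
    _ = 2 * 13 ^ (n + 1) := by field_simp

/-- the finite set of parameters -/
noncomputable def params (n M : ℕ) : Finset (Fin (n + 1) × (Fin (n + 1) → ℤ) × (Fin (n + 1) → ℤ)) :=
  Finset.univ ×ˢ (Fintype.piFinset fun _ => Finset.Icc (-(M : ℤ)) M) ×ˢ
    (Fintype.piFinset fun _ => Finset.Icc (-(7 * M : ℤ)) (7 * M))

theorem card_params {n M : ℕ} (hM : 0 < M) :
    ((params n M).card : ℝ) ≤ (n + 1) * 45 ^ (n + 1) * (M : ℝ) ^ (2 * (n + 1)) := by
  have hMr : (1 : ℝ) ≤ M := by exact_mod_cast hM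
  have h1 : (params n M).card = (n + 1) * ((2 * M + 1) ^ (n + 1) * (14 * M + 1) ^ (n + 1)) := by
    rw [params, Finset.card_product, Finset.card_product, Fintype.card_piFinset,
      Fintype.card_piFinset]
    simp only [Int.card_Icc, Finset.card_univ, Fintype.card_fin, Finset.prod_const]
    congr 1
    have e1 : ((M : ℤ) + 1 - -(M : ℤ)).toNat = 2 * M + 1 := by omega
    have e2 : ((7 * M : ℤ) + 1 - -(7 * M : ℤ)).toNat = 14 * M + 1 := by omega
    rw [e1, e2]
  rw [h1]
  push_cast
  have h2 : (2 * (M : ℝ) + 1) ^ (n + 1) ≤ (3 * M) ^ (n + 1) := by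
    apply pow_le_pow_left₀ (by positivity)
    linarith
  have h3 : (14 * (M : ℝ) + 1) ^ (n + 1) ≤ (15 * M) ^ (n + 1) := by
    apply pow_le_pow_left₀ (by positivity)
    linarith
  calc ((n : ℝ) + 1) * ((2 * (M : ℝ) + 1) ^ (n + 1) * (14 * (M : ℝ) + 1) ^ (n + 1))
      ≤ ((n : ℝ) + 1) * ((3 * M) ^ (n + 1) * (15 * M) ^ (n + 1)) := by gcongr
    _ = (n + 1) * 45 ^ (n + 1) * (M : ℝ) ^ (2 * (n + 1)) := by
      have e : (3 * (M : ℝ)) ^ (n + 1) * (15 * M) ^ (n + 1) =
          45 ^ (n + 1) * (M : ℝ) ^ (2 * (n + 1)) := by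
        rw [← mul_pow, show (3 * (M : ℝ)) * (15 * M) = 45 * M ^ 2 by ring, mul_pow, ← pow_mul]
      rw [e, mul_assoc]

theorem exists_avg {α β : Type*} (S : Finset α) (P : Finset β) (hS : S.Nonempty)
    (f : α → β → ℝ) (hf : ∀ a b, 0 ≤ f a b) (B : ℝ)
    (h : ∀ b ∈ P, ∑ a ∈ S, f a b ≤ S.card * B) :
    ∃ a ∈ S, ∀ b ∈ P, f a b ≤ P.card * B := by
  have hsum : ∑ a ∈ S, ∑ b ∈ P, f a b ≤ ∑ a ∈ S, (P.card : ℝ) * B := by
    rw [Finset.sum_comm]
    refine (Finset.sum_le_sum h).trans ?_
    rw [Finset.sum_const, Finset.sum_const, nsmul_eq_mul, nsmul_eq_mul]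
    apply le_of_eq
    ring
  obtain ⟨a, ha, hle⟩ := Finset.exists_le_of_sum_le hS hsum
  refine ⟨a, ha, fun b hb => ?_⟩
  exact (Finset.single_le_sum (f := fun b => f a b) (fun b _ => hf a b) hb).trans hle

theorem exists_g (n : ℕ) (M : ℕ) (hM : 0 < M) : ∃ g : cols n M → ℕ,
    (∀ u, g u < M) ∧ ∀ (i : Fin (n + 1)) (s r : Fin (n + 1) → ℤ), (i, s, r) ∈ params n M →
      Real.exp (cnt M g i s r : ℝ) ≤
        ((n + 1) * 45 ^ (n + 1) * Real.exp (2 * 13 ^ (n + 1))) * (M : ℝ) ^ (2 * (n + 1)) := by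
  have hne : (Fintype.piFinset (fun _ : cols n M => Finset.range M)).Nonempty := by
    refine ⟨fun _ => 0, ?_⟩
    rw [Fintype.mem_piFinset]
    intro _
    exact Finset.mem_range.mpr hM
  have hcard : ((Fintype.piFinset (fun _ : cols n M => Finset.range M)).card : ℝ) =
      (M : ℝ) ^ (cols n M).card := by
    rw [Fintype.card_piFinset, Finset.prod_const, Finset.card_range, Finset.card_univ,
      Fintype.card_coe, Nat.cast_pow]
  obtain ⟨g, hg, hgs⟩ := exists_avg (Fintype.piFinset (fun _ : cols n M => Finset.range M))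
    (params n M) hne (fun g π => Real.exp (cnt M g π.1 π.2.1 π.2.2 : ℝ))
    (fun _ _ => (Real.exp_pos _).le) (Real.exp (2 * 13 ^ (n + 1))) (by
      intro π _
      rw [hcard]
      exact moment hM π.1 π.2.1 π.2.2)
  rw [Fintype.mem_piFinset] at hg
  refine ⟨g, fun u => Finset.mem_range.mp (hg u), ?_⟩
  intro i s r hπ
  have h2 := hgs (i, s, r) hπ
  refine h2.trans ?_
  have h3 := card_params (n := n) hM
  calc ((params n M).card : ℝ) * Real.exp (2 * 13 ^ (n + 1))
      ≤ ((n + 1) * 45 ^ (n + 1) * (M : ℝ) ^ (2 * (n + 1))) * Real.exp (2 * 13 ^ (n + 1)) :=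
        mul_le_mul_of_nonneg_right h3 (Real.exp_pos _).le
    _ = _ := by ring

/-- rounding of a real cell-line estimate -/
theorem round_near {M : ℕ} (hM : 0 < M) {zk zi : ℕ} (hzk : zk < M) (hzi : zi < M) {q v : ℝ}
    (hv : |v| ≤ 1) (hz : |(zk : ℝ) - q - zi * v| ≤ 4) :
    |q| ≤ 2 * M + 4 ∧
      |(M : ℤ) * (zk : ℤ) - M * round q - zi * round ((M : ℝ) * v)| ≤ 6 * M := by
  have hM0 : (0 : ℝ) < M := by exact_mod_cast hM
  have hzk1 : (zk : ℝ) ≤ M := by exact_mod_cast hzk.le
  have hzi1 : (zi : ℝ) ≤ M := by exact_mod_cast hzi.le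
  have hzk0 : (0 : ℝ) ≤ zk := Nat.cast_nonneg _
  have hzi0 : (0 : ℝ) ≤ zi := Nat.cast_nonneg _
  have hzv : |(zi : ℝ) * v| ≤ M := by
    rw [abs_mul, abs_of_nonneg hzi0]
    calc (zi : ℝ) * |v| ≤ M * 1 := mul_le_mul hzi1 hv (abs_nonneg _) hM0.le
      _ = M := mul_one _
  have hz' := abs_le.mp hz
  have hzv' := abs_le.mp hzv
  constructor
  · rw [abs_le]
    constructor <;> linarith
  · have h3 : |(zi : ℝ) * ((M : ℝ) * v - round ((M : ℝ) * v))| ≤ M * (1 / 2) := by
      rw [abs_mul, abs_of_nonneg hzi0]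
      exact mul_le_mul hzi1 (abs_sub_round _) (abs_nonneg _) hM0.le
    have h4 : |(M : ℝ) * (q - round q)| ≤ M * (1 / 2) := by
      rw [abs_mul, abs_of_nonneg hM0.le]
      exact mul_le_mul_of_nonneg_left (abs_sub_round _) hM0.le
    have h5 : |(M : ℝ) * ((zk : ℝ) - q - zi * v)| ≤ M * 4 := by
      rw [abs_mul, abs_of_nonneg hM0.le]
      exact mul_le_mul_of_nonneg_left hz hM0.le
    have h6 : |(M : ℝ) * (zk : ℝ) - M * (round q : ℤ) - zi * (round ((M : ℝ) * v) : ℤ)| ≤ 6 * M := by
      have e1 : (M : ℝ) * (zk : ℝ) - M * (round q : ℤ) - zi * (round ((M : ℝ) * v) : ℤ) =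
          (M : ℝ) * ((zk : ℝ) - q - zi * v) + M * (q - round q) +
            zi * ((M : ℝ) * v - round ((M : ℝ) * v)) := by ring
      rw [e1]
      have h7 := abs_le.mp h3
      have h8 := abs_le.mp h4
      have h9 := abs_le.mp h5
      rw [abs_le]
      constructor <;> linarith
    exact_mod_cast h6

theorem round_s_mem {M : ℕ} {v : ℝ} (hv : |v| ≤ 1) :
    round ((M : ℝ) * v) ∈ Finset.Icc (-(M : ℤ)) M := by
  have hM0 : (0 : ℝ) ≤ M := Nat.cast_nonneg _
  have h2 := abs_le.mp (abs_sub_round ((M : ℝ) * v))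
  have hvk := abs_le.mp hv
  have h3 : (M : ℝ) * v ≤ M := by nlinarith
  have h4 : -(M : ℝ) ≤ (M : ℝ) * v := by nlinarith
  rw [Finset.mem_Icc]
  constructor
  · have h : ((-(M : ℤ) - 1 : ℤ) : ℝ) < (round ((M : ℝ) * v) : ℝ) := by
      push_cast; linarith [h2.2]
    have h' : (-(M : ℤ) - 1 : ℤ) < round ((M : ℝ) * v) := by exact_mod_cast h
    omega
  · have h : (round ((M : ℝ) * v) : ℝ) < (((M : ℤ) + 1 : ℤ) : ℝ) := by
      push_cast; linarith [h2.1]
    have h' : round ((M : ℝ) * v) < (M : ℤ) + 1 := by exact_mod_cast h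
    omega

theorem round_r_mem {M : ℕ} (hM : 0 < M) {q : ℝ} (hq : |q| ≤ 2 * M + 4) :
    round q ∈ Finset.Icc (-(7 * M : ℤ)) (7 * M) := by
  have hM1 : (1 : ℝ) ≤ M := by exact_mod_cast hM
  have h1 := abs_le.mp (abs_sub_round q)
  have h2 := abs_le.mp hq
  rw [Finset.mem_Icc]
  constructor
  · have h : ((-(7 * M : ℤ) - 1 : ℤ) : ℝ) < (round q : ℝ) := by
      push_cast; linarith [h1.2]
    have h' : (-(7 * M : ℤ) - 1 : ℤ) < round q := by exact_mod_cast h
    omega
  · have h : (round q : ℝ) < (((7 * M : ℤ) + 1 : ℤ) : ℝ) := by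
      push_cast; linarith [h1.1]
    have h' : round q < (7 * M : ℤ) + 1 := by exact_mod_cast h
    omega

open Classical in
/-- **good digit patterns** -/
theorem pattern (n : ℕ) : ∃ C : ℝ, 1 ≤ C ∧ ∀ M : ℕ, 0 < M → ∃ g : (Fin n → ℕ) → ℕ,
    (∀ u, g u < M) ∧ ∀ (i : Fin (n + 1)) (v q : Fin (n + 1) → ℝ), (∀ k, |v k| ≤ 1) →
      ∀ A : Finset (Fin n → ℕ), (∀ u ∈ A, u ∈ cols n M ∧ ∀ k, k ≠ i →
        |(zc u (g u) k : ℝ) - q k - zc u (g u) i * v k| ≤ 4) →
      Real.exp (A.card : ℝ) ≤ C * (M : ℝ) ^ (2 * (n + 1)) := by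
  have hC1 : (1 : ℝ) ≤ (n + 1) * 45 ^ (n + 1) * Real.exp (2 * 13 ^ (n + 1)) := by
    have h2 : (1 : ℝ) ≤ (n : ℝ) + 1 := by
      have : (0 : ℝ) ≤ n := Nat.cast_nonneg n
      linarith
    have h3 : (1 : ℝ) ≤ 45 ^ (n + 1) := one_le_pow₀ (by norm_num)
    have h4 : (1 : ℝ) ≤ Real.exp (2 * 13 ^ (n + 1)) := Real.one_le_exp (by positivity)
    exact one_le_mul_of_one_le_of_one_le (one_le_mul_of_one_le_of_one_le h2 h3) h4
  refine ⟨(n + 1) * 45 ^ (n + 1) * Real.exp (2 * 13 ^ (n + 1)), hC1, ?_⟩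
  intro M hM
  have hMr : (1 : ℝ) ≤ M := by exact_mod_cast hM
  obtain ⟨g, hg, hgs⟩ := exists_g n M hM
  refine ⟨fun u => if h : u ∈ cols n M then g ⟨u, h⟩ else 0, ?_, ?_⟩
  · intro u
    simp only
    split_ifs with h
    · exact hg _
    · exact hM
  · intro i v q hv A hA
    rcases A.eq_empty_or_nonempty with hAe | ⟨u0, hu0⟩
    · rw [hAe, Finset.card_empty, Nat.cast_zero, Real.exp_zero]
      have h1 : (1 : ℝ) ≤ (M : ℝ) ^ (2 * (n + 1)) := one_le_pow₀ hMr
      exact one_le_mul_of_one_le_of_one_le hC1 h1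
    · have key : ∀ u (hu : u ∈ A), ∀ k, k ≠ i → (|q k| ≤ 2 * M + 4) ∧
          |(M : ℤ) * (zc u (g ⟨u, (hA u hu).1⟩) k : ℤ) - M * round (q k) -
            zc u (g ⟨u, (hA u hu).1⟩) i * round ((M : ℝ) * v k)| ≤ 6 * M := by
        intro u hu k hk
        have hz := (hA u hu).2 k hk
        simp only [dif_pos (hA u hu).1] at hz
        have hzm := mem_cols.mp (zc_mem (hA u hu).1 (hg ⟨u, (hA u hu).1⟩))
        exact round_near hM (hzm k) (hzm i) (hv k) hz
      have hπ : (i, (fun k => round ((M : ℝ) * v k)),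
          (fun k => if k = i then 0 else round (q k))) ∈ params n M := by
        rw [params, Finset.mem_product, Finset.mem_product]
        refine ⟨Finset.mem_univ _, ?_, ?_⟩
        · rw [Fintype.mem_piFinset]
          intro k
          exact round_s_mem (hv k)
        · rw [Fintype.mem_piFinset]
          intro k
          by_cases hk : k = i
          · simp only [if_pos hk]
            rw [Finset.mem_Icc]
            constructor <;> omega
          · simp only [if_neg hk]
            exact round_r_mem hM (key u0 hu0 k hk).1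
      refine le_trans (Real.exp_le_exp.mpr ?_) (hgs _ _ _ hπ)
      have hcardle : A.card ≤ cnt M g i (fun k => round ((M : ℝ) * v k))
          (fun k => if k = i then 0 else round (q k)) := by
        rw [cnt]
        apply Finset.card_le_card_of_surjOn (fun u : cols n M => u.1)
        intro u hu
        have hu' : u ∈ A := hu
        refine ⟨⟨u, (hA u hu').1⟩, ?_, rfl⟩
        rw [Finset.mem_coe, Finset.mem_filter]
        refine ⟨Finset.mem_univ _, ?_⟩
        intro k hk
        have := (key u hu' k hk).2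
        simp only [if_neg hk]
        exact this
      exact_mod_cast hcardle

end Pool.Agent.V1146.TB
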