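import Mathlib
import Pool.Agent.V1146.TB.Pattern

set_option autoImplicit false

open MeasureTheory

namespace Pool.Agent.V1146.TB

/-- the scale `Q j = (j+1)!` -/
def Q (j : ℕ) : ℕ := (j + 1).factorial

theorem Q_zero : Q 0 = 1 := rfl

theorem Q_succ (j : ℕ) : Q (j + 1) = (j + 2) * Q j := Nat.factorial_succ (j + 1)

theorem Q_pos (j : ℕ) : 0 < Q j := Nat.factorial_pos _

theorem Qr_pos (j : ℕ) : (0 : ℝ) < Q j := by exact_mod_cast Q_pos j

theorem Qr_one (j : ℕ) : (1 : ℝ) ≤ Q j := by exact_mod_cast Q_pos j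

theorem Qr_succ (j : ℕ) : (Q (j + 1) : ℝ) = (j + 2) * Q j := by
  rw [Q_succ]; push_cast; ring

variable {n : ℕ}

/-- address of generation `j` -/
noncomputable def ad (j : ℕ) (x : Fin n → ℝ) : Fin n → ℕ := fun k => ⌊(Q j : ℝ) * x k⌋₊

theorem ad_div (j : ℕ) (x : Fin n → ℝ) (k : Fin n) : ad (j + 1) x k / (j + 2) = ad j x k := by
  unfold ad
  have h := Nat.floor_div_natCast ((Q (j + 1) : ℝ) * x k) (j + 2)
  rw [← h]
  congr 1
  rw [Qr_succ]
  push_cast
  have : (j : ℝ) + 2 ≠ 0 := by positivity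
  field_simp

/-- height of the generation `j` cell with address `α` -/
def hb (g : ℕ → (Fin n → ℕ) → ℕ) : ℕ → (Fin n → ℕ) → ℕ
  | 0, _ => 0
  | j + 1, α => (j + 2) * hb g j (fun k => α k / (j + 2)) + g j (fun k => α k % (j + 2))

/-- height of the generation `j` cell containing `x` -/
noncomputable def bx (g : ℕ → (Fin n → ℕ) → ℕ) (j : ℕ) (x : Fin n → ℝ) : ℕ := hb g j (ad j x)

theorem bx_zero (g : ℕ → (Fin n → ℕ) → ℕ) (x : Fin n → ℝ) : bx g 0 x = 0 := rfl

theorem bx_succ (g : ℕ → (Fin n → ℕ) → ℕ) (j : ℕ) (x : Fin n → ℝ) :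
    bx g (j + 1) x = (j + 2) * bx g j x + g j (fun k => ad (j + 1) x k % (j + 2)) := by
  unfold bx
  rw [hb]
  congr 3
  funext k
  exact ad_div j x k

/-- lower approximations -/
noncomputable def lo (g : ℕ → (Fin n → ℕ) → ℕ) (x : Fin n → ℝ) (j : ℕ) : ℝ := (bx g j x : ℝ) / Q j

/-- upper approximations -/
noncomputable def up (g : ℕ → (Fin n → ℕ) → ℕ) (x : Fin n → ℝ) (j : ℕ) : ℝ :=
  ((bx g j x : ℝ) + 1) / Q j

theorem lo_mono (g : ℕ → (Fin n → ℕ) → ℕ) (x : Fin n → ℝ) : Monotone (lo g x) := by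
  apply monotone_nat_of_le_succ
  intro j
  unfold lo
  rw [bx_succ, Qr_succ, div_le_div_iff₀ (Qr_pos j) (by have := Qr_pos j; positivity)]
  push_cast
  have h1 := Qr_pos j
  have h2 : (0 : ℝ) ≤ (g j (fun k => ad (j + 1) x k % (j + 2)) : ℝ) := Nat.cast_nonneg _
  nlinarith [mul_nonneg h1.le h2]

theorem up_anti (g : ℕ → (Fin n → ℕ) → ℕ) (hg : ∀ j u, g j u < j + 2) (x : Fin n → ℝ) :
    Antitone (up g x) := by
  apply antitone_nat_of_succ_le
  intro j
  unfold up
  rw [bx_succ, Qr_succ, div_le_div_iff₀ (by have := Qr_pos j; positivity) (Qr_pos j)]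
  push_cast
  have h1 := Qr_pos j
  have h2 : (g j (fun k => ad (j + 1) x k % (j + 2)) : ℝ) + 1 ≤ j + 2 := by
    exact_mod_cast hg j _
  nlinarith [mul_le_mul_of_nonneg_left h2 h1.le]

theorem lo_le_up (g : ℕ → (Fin n → ℕ) → ℕ) (hg : ∀ j u, g j u < j + 2) (x : Fin n → ℝ)
    (i j : ℕ) : lo g x i ≤ up g x j := by
  have h : ∀ l, lo g x l ≤ up g x l := fun l => by
    unfold lo up
    exact div_le_div_of_nonneg_right (by linarith) (Qr_pos l).le
  rcases le_total i j with hij | hij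
  · exact (lo_mono g x hij).trans (h j)
  · exact (h i).trans (up_anti g hg x hij)

/-- the function whose graph is `K` -/
noncomputable def fx (g : ℕ → (Fin n → ℕ) → ℕ) (x : Fin n → ℝ) : ℝ := ⨆ j, lo g x j

theorem bdd_lo (g : ℕ → (Fin n → ℕ) → ℕ) (hg : ∀ j u, g j u < j + 2) (x : Fin n → ℝ) :
    BddAbove (Set.range (lo g x)) := ⟨up g x 0, by rintro _ ⟨i, rfl⟩; exact lo_le_up g hg x i 0⟩

theorem lo_le_fx (g : ℕ → (Fin n → ℕ) → ℕ) (hg : ∀ j u, g j u < j + 2) (x : Fin n → ℝ)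
    (j : ℕ) : lo g x j ≤ fx g x := le_ciSup (bdd_lo g hg x) j

theorem fx_le_up (g : ℕ → (Fin n → ℕ) → ℕ) (hg : ∀ j u, g j u < j + 2) (x : Fin n → ℝ)
    (j : ℕ) : fx g x ≤ up g x j := ciSup_le fun i => lo_le_up g hg x i j

/-- the point of the graph -/
noncomputable def pt (g : ℕ → (Fin n → ℕ) → ℕ) (x : Fin n → ℝ) : EuclideanSpace ℝ (Fin (n + 1)) :=
  WithLp.toLp 2 (Fin.snoc (α := fun _ => ℝ) x (fx g x))

theorem pt_castSucc (g : ℕ → (Fin n → ℕ) → ℕ) (x : Fin n → ℝ) (k : Fin n) :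
    pt g x k.castSucc = x k := by
  simp [pt]

theorem pt_last (g : ℕ → (Fin n → ℕ) → ℕ) (x : Fin n → ℝ) :
    pt g x (Fin.last n) = fx g x := by
  simp [pt]

/-- the unit cube -/
def cube (n : ℕ) : Set (Fin n → ℝ) := Set.pi Set.univ fun _ => Set.Ico 0 1

theorem mem_cube {x : Fin n → ℝ} : x ∈ cube n ↔ ∀ k, 0 ≤ x k ∧ x k < 1 := by
  simp [cube, Set.mem_pi]

/-- the cell of generation `j` containing the point of the graph above `x` -/
noncomputable def cell (g : ℕ → (Fin n → ℕ) → ℕ) (j : ℕ) (α : Fin n → ℕ) : Fin (n + 1) → ℕ :=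
  zc α (hb g j α)

theorem cell_bounds (g : ℕ → (Fin n → ℕ) → ℕ) (hg : ∀ j u, g j u < j + 2) {x : Fin n → ℝ}
    (hx : x ∈ cube n) (j : ℕ) (k : Fin (n + 1)) :
    (cell g j (ad j x) k : ℝ) ≤ Q j * pt g x k ∧
      Q j * pt g x k ≤ cell g j (ad j x) k + 1 := by
  rw [mem_cube] at hx
  refine Fin.lastCases ?_ (fun k => ?_) k
  · rw [pt_last]
    have e : cell g j (ad j x) (Fin.last n) = bx g j x := by simp [cell, zc, bx]
    rw [e]
    have h1 := lo_le_fx g hg x j
    have h2 := fx_le_up g hg x j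
    unfold lo at h1
    unfold up at h2
    rw [div_le_iff₀ (Qr_pos j)] at h1
    rw [le_div_iff₀ (Qr_pos j)] at h2
    constructor <;> linarith
  · rw [pt_castSucc]
    have e : cell g j (ad j x) k.castSucc = ad j x k := by simp [cell, zc]
    rw [e]
    unfold ad
    have h0 : 0 ≤ (Q j : ℝ) * x k := mul_nonneg (Qr_pos j).le (hx k).1
    exact ⟨Nat.floor_le h0, (Nat.lt_floor_add_one _).le⟩

theorem ad_mem_cols {x : Fin n → ℝ} (hx : x ∈ cube n) (j : ℕ) : ad j x ∈ cols n (Q j) := by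
  rw [mem_cols]
  rw [mem_cube] at hx
  intro k
  unfold ad
  rw [Nat.floor_lt (mul_nonneg (Qr_pos j).le (hx k).1)]
  have := Qr_pos j
  nlinarith [(hx k).2]

theorem cell_succ (g : ℕ → (Fin n → ℕ) → ℕ) (j : ℕ) (α : Fin n → ℕ) (k : Fin (n + 1)) :
    cell g (j + 1) α k = (j + 2) * cell g j (fun k => α k / (j + 2)) k +
      zc (fun k => α k % (j + 2)) (g j (fun k => α k % (j + 2))) k := by
  refine Fin.lastCases ?_ (fun k => ?_) k
  · simp [cell, zc, hb]
  · simp only [cell, zc, Fin.snoc_castSucc]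
    exact (Nat.div_add_mod (α k) (j + 2)).symm

open Classical in
/-- occupied addresses -/
noncomputable def occ (g : ℕ → (Fin n → ℕ) → ℕ) (T : Set (EuclideanSpace ℝ (Fin (n + 1)))) (j : ℕ) :
    Finset (Fin n → ℕ) :=
  (cols n (Q j)).filter fun α => ∃ x ∈ cube n, pt g x ∈ T ∧ ad j x = α

theorem mem_occ {g : ℕ → (Fin n → ℕ) → ℕ} {T : Set (EuclideanSpace ℝ (Fin (n + 1)))} {j : ℕ}
    {α : Fin n → ℕ} : α ∈ occ g T j ↔ ∃ x ∈ cube n, pt g x ∈ T ∧ ad j x = α := by
  classical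
  unfold occ
  rw [Finset.mem_filter]
  refine ⟨fun h => h.2, fun h => ⟨?_, h⟩⟩
  obtain ⟨x, hx, _, rfl⟩ := h
  exact ad_mem_cols hx j

/-- the property of a good pattern -/
def Good (C : ℝ) (n M : ℕ) (g : (Fin n → ℕ) → ℕ) : Prop :=
  (∀ u, g u < M) ∧ ∀ (i : Fin (n + 1)) (v q : Fin (n + 1) → ℝ), (∀ k, |v k| ≤ 1) →
      ∀ A : Finset (Fin n → ℕ), (∀ u ∈ A, u ∈ cols n M ∧ ∀ k, k ≠ i →
        |(zc u (g u) k : ℝ) - q k - zc u (g u) i * v k| ≤ 4) →
      Real.exp (A.card : ℝ) ≤ C * (M : ℝ) ^ (2 * (n + 1))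

theorem exists_good (n : ℕ) : ∃ C : ℝ, 1 ≤ C ∧ ∃ g : ℕ → (Fin n → ℕ) → ℕ,
    ∀ j, Good C n (j + 2) (g j) := by
  obtain ⟨C, hC, h⟩ := pattern n
  have h' : ∀ j : ℕ, ∃ g : (Fin n → ℕ) → ℕ, Good C n (j + 2) g := fun j => h (j + 2) (by omega)
  choose g hg using h'
  exact ⟨C, hC, g, hg⟩

/-- the branching bound -/
noncomputable def nb (C : ℝ) (n j : ℕ) : ℕ := ⌊Real.log (C * ((j + 2 : ℕ) : ℝ) ^ (2 * (n + 1)))⌋₊

open Classical in
theorem occ_step {C : ℝ} (hC : 1 ≤ C) (g : ℕ → (Fin n → ℕ) → ℕ) (hg : ∀ j, Good C n (j + 2) (g j))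
    (T : Set (EuclideanSpace ℝ (Fin (n + 1)))) (i : Fin (n + 1)) (v q : Fin (n + 1) → ℝ)
    (hv : ∀ k, |v k| ≤ 1) (w : ℝ) (hT : ∀ y ∈ T, ∀ k, k ≠ i → |y k - q k - y i * v k| ≤ w)
    (j : ℕ) (hw : Q (j + 1) * w ≤ 2) :
    (occ g T (j + 1)).card ≤ nb C n j * (occ g T j).card := by
  have hg' : ∀ j u, g j u < j + 2 := fun j u => (hg j).1 u
  have himg : (occ g T (j + 1)).image (fun α k => α k / (j + 2)) ⊆ occ g T j := by
    intro β hβ
    rw [Finset.mem_image] at hβ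
    obtain ⟨α, hα, rfl⟩ := hβ
    rw [mem_occ] at hα ⊢
    obtain ⟨x, hx, hxT, rfl⟩ := hα
    exact ⟨x, hx, hxT, by funext k; exact (ad_div j x k).symm⟩
  refine le_trans (Finset.card_le_mul_card_image (f := fun α k => α k / (j + 2)) _ (nb C n j) ?_)
    (Nat.mul_le_mul_left _ (Finset.card_le_card himg))
  intro β hβ
  set F := (occ g T (j + 1)).filter (fun α => (fun k => α k / (j + 2)) = β) with hF
  set A : Finset (Fin n → ℕ) := F.image (fun α k => α k % (j + 2)) with hA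
  have hcard : A.card = F.card := by
    rw [hA]
    apply Finset.card_image_of_injOn
    intro α hα α' hα' h
    rw [hF, Finset.mem_coe, Finset.mem_filter] at hα hα'
    funext k
    have h1 := congrFun h k
    simp only at h1
    have h2 : α k / (j + 2) = α' k / (j + 2) :=
      (congrFun hα.2 k).trans (congrFun hα'.2 k).symm
    rw [← Nat.div_add_mod (α k) (j + 2), ← Nat.div_add_mod (α' k) (j + 2), h1, h2]
  have hexp := (hg j).2 i v (fun k => Q (j + 1) * q k - (j + 2) * cell g j β k +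
    (j + 2) * cell g j β i * v k) hv A (by
      intro u hu
      rw [hA, Finset.mem_image] at hu
      obtain ⟨α, hα, rfl⟩ := hu
      rw [hF, Finset.mem_filter] at hα
      refine ⟨?_, ?_⟩
      · rw [mem_cols]
        intro k
        exact Nat.mod_lt _ (by omega)
      · intro k hk
        obtain ⟨hα1, hα2⟩ := hα
        rw [mem_occ] at hα1
        obtain ⟨x, hx, hxT, hxα⟩ := hα1
        have h1 := hT _ hxT k hk
        have hk1 := cell_bounds g hg' hx (j + 1) k
        have hi1 := cell_bounds g hg' hx (j + 1) i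
        rw [hxα] at hk1 hi1
        have ek := cell_succ g j α k
        have ei := cell_succ g j α i
        rw [hα2] at ek ei
        set ck := zc (fun k => α k % (j + 2)) (g j (fun k => α k % (j + 2))) k with hck
        set ci := zc (fun k => α k % (j + 2)) (g j (fun k => α k % (j + 2))) i with hci
        have ek' : (cell g (j + 1) α k : ℝ) = (j + 2) * cell g j β k + ck := by
          rw [ek]; push_cast; ring
        have ei' : (cell g (j + 1) α i : ℝ) = (j + 2) * cell g j β i + ci := by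
          rw [ei]; push_cast; ring
        have hQ := Qr_pos (j + 1)
        have h2 : |(Q (j + 1) : ℝ) * (pt g x k - q k - pt g x i * v k)| ≤ 2 := by
          rw [abs_mul, abs_of_pos hQ]
          exact (mul_le_mul_of_nonneg_left h1 hQ.le).trans hw
        have h3 : |(Q (j + 1) * pt g x i - cell g (j + 1) α i) * v k| ≤ 1 := by
          rw [abs_mul]
          have : |Q (j + 1) * pt g x i - cell g (j + 1) α i| ≤ 1 := by
            rw [abs_le]; constructor <;> linarith [hi1.1, hi1.2]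
          calc _ ≤ (1 : ℝ) * 1 := mul_le_mul this (hv k) (abs_nonneg _) (by norm_num)
            _ = 1 := by norm_num
        have h2' := abs_le.mp h2
        have h3' := abs_le.mp h3
        have e : (ck : ℝ) - (Q (j + 1) * q k - (j + 2) * cell g j β k +
            (j + 2) * cell g j β i * v k) - ci * v k =
            (Q (j + 1) : ℝ) * (pt g x k - q k - pt g x i * v k) +
            (Q (j + 1) * pt g x i - cell g (j + 1) α i) * v k +
            (cell g (j + 1) α k - Q (j + 1) * pt g x k) := by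
          rw [ek', ei']; ring
        rw [e, abs_le]
        constructor <;> linarith [hk1.1, hk1.2])
  rw [hcard] at hexp
  unfold nb
  apply Nat.le_floor
  rw [Real.le_log_iff_exp_le (by positivity)]
  exact hexp

theorem occ_zero (g : ℕ → (Fin n → ℕ) → ℕ) (T : Set (EuclideanSpace ℝ (Fin (n + 1)))) :
    (occ g T 0).card ≤ 1 := by
  rw [Finset.card_le_one]
  have h : ∀ α ∈ occ g T 0, α = fun _ => 0 := by
    intro α hα
    rw [mem_occ] at hα
    obtain ⟨x, hx, _, rfl⟩ := hα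
    have := ad_mem_cols hx 0
    rw [mem_cols, Q_zero] at this
    funext k
    exact Nat.lt_one_iff.mp (this k)
  intro a ha b hb
  rw [h a ha, h b hb]

theorem Q_mono {i j : ℕ} (h : i ≤ j) : Q i ≤ Q j := Nat.factorial_le (by omega)

theorem occ_card {C : ℝ} (hC : 1 ≤ C) (g : ℕ → (Fin n → ℕ) → ℕ) (hg : ∀ j, Good C n (j + 2) (g j))
    (T : Set (EuclideanSpace ℝ (Fin (n + 1)))) (i : Fin (n + 1)) (v q : Fin (n + 1) → ℝ)
    (hv : ∀ k, |v k| ≤ 1) (w : ℝ) (hw0 : 0 ≤ w)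
    (hT : ∀ y ∈ T, ∀ k, k ≠ i → |y k - q k - y i * v k| ≤ w)
    (j : ℕ) (hw : Q j * w ≤ 2) :
    (occ g T j).card ≤ ∏ l ∈ Finset.range j, nb C n l := by
  induction j with
  | zero => simpa using occ_zero g T
  | succ j ih =>
    rw [Finset.prod_range_succ, mul_comm]
    have h1 : (Q j : ℝ) * w ≤ 2 := by
      refine le_trans (mul_le_mul_of_nonneg_right ?_ hw0) hw
      exact_mod_cast Q_mono (Nat.le_succ j)
    exact (occ_step hC g hg T i v q hv w hT j hw).trans (Nat.mul_le_mul_left _ (ih h1))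

end Pool.Agent.V1146.TB
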