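import Mathlib
import Pool.Agent.V1146.TB.Constr

set_option autoImplicit false

open Filter

namespace Pool.Agent.V1146.TB

theorem growth (N : ℕ → ℝ) (h0 : ∀ i, 0 ≤ N i) (ε : ℝ) (hε : 0 < ε)
    (hN : ∀ᶠ i : ℕ in atTop, N i ≤ ((i : ℝ) + 2) ^ ε) :
    ∃ C : ℝ, 0 < C ∧ ∀ j, ∏ l ∈ Finset.range j, N l ≤ C * (Q j : ℝ) ^ ε := by
  obtain ⟨i0, hi0⟩ := eventually_atTop.mp hN
  have hpn : ∀ j, 0 ≤ ∏ l ∈ Finset.range j, N l := fun j => Finset.prod_nonneg fun l _ => h0 l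
  set C : ℝ := 1 + ∑ j ∈ Finset.range (i0 + 1), ∏ l ∈ Finset.range j, N l with hC
  have hCpos : 0 < C := by
    have : 0 ≤ ∑ j ∈ Finset.range (i0 + 1), ∏ l ∈ Finset.range j, N l :=
      Finset.sum_nonneg fun j _ => hpn j
    linarith
  have hQ1 : ∀ j, (1 : ℝ) ≤ (Q j : ℝ) ^ ε := fun j => Real.one_le_rpow (Qr_one j) hε.le
  have hle : ∀ j, j ≤ i0 → ∏ l ∈ Finset.range j, N l ≤ C * (Q j : ℝ) ^ ε := by
    intro j hj
    have h1 : ∏ l ∈ Finset.range j, N l ≤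
        ∑ j ∈ Finset.range (i0 + 1), ∏ l ∈ Finset.range j, N l :=
      Finset.single_le_sum (f := fun j => ∏ l ∈ Finset.range j, N l) (fun j _ => hpn j)
        (Finset.mem_range.mpr (by omega))
    have h2 : C * 1 ≤ C * (Q j : ℝ) ^ ε := mul_le_mul_of_nonneg_left (hQ1 j) hCpos.le
    linarith
  refine ⟨C, hCpos, ?_⟩
  intro j
  rcases le_total j i0 with h | h
  · exact hle j h
  · induction j, h using Nat.le_induction with
    | base => exact hle i0 le_rfl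
    | succ j hj ih =>
      rw [Finset.prod_range_succ, Qr_succ,
        Real.mul_rpow (by positivity) (Qr_pos j).le]
      calc (∏ l ∈ Finset.range j, N l) * N j
          ≤ (C * (Q j : ℝ) ^ ε) * ((j : ℝ) + 2) ^ ε :=
            mul_le_mul ih (hi0 j hj) (h0 j) (by have := hQ1 j; positivity)
        _ = C * (((j : ℝ) + 2) ^ ε * (Q j : ℝ) ^ ε) := by ring

theorem tendsto_add_two : Tendsto (fun i : ℕ => (i : ℝ) + 2) atTop atTop :=
  tendsto_atTop_add_const_right _ _ tendsto_natCast_atTop_atTop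

theorem growth_nb {C : ℝ} (hC : 1 ≤ C) (n : ℕ) (ε : ℝ) (hε : 0 < ε) :
    ∃ C' : ℝ, 0 < C' ∧ ∀ j, ((∏ l ∈ Finset.range j, nb C n l : ℕ) : ℝ) ≤ C' * (Q j : ℝ) ^ ε := by
  obtain ⟨C', hC', h⟩ := growth (fun i => (nb C n i : ℝ)) (fun i => Nat.cast_nonneg _) ε hε (by
    have h1 : (fun x : ℝ => Real.log C + (2 * (n + 1) : ℝ) * Real.log x) =o[atTop]
        fun x => x ^ ε := by
      apply Asymptotics.IsLittleO.add
      · rw [Asymptotics.isLittleO_const_left]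
        right
        have := tendsto_rpow_atTop hε
        exact tendsto_norm_atTop_atTop.comp this
      · exact (isLittleO_log_rpow_atTop hε).const_mul_left _
    have h2 := (h1.comp_tendsto tendsto_add_two).def (c := 1) one_pos
    filter_upwards [h2] with i hi
    simp only [Function.comp, one_mul, Real.norm_eq_abs] at hi
    have hi2 : (0 : ℝ) < (i : ℝ) + 2 := by positivity
    rw [abs_of_nonneg (Real.rpow_nonneg hi2.le ε)] at hi
    have h3 : (nb C n i : ℝ) ≤ Real.log (C * ((i + 2 : ℕ) : ℝ) ^ (2 * (n + 1))) := by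
      unfold nb
      apply Nat.floor_le
      apply Real.log_nonneg
      have : (1 : ℝ) ≤ ((i + 2 : ℕ) : ℝ) ^ (2 * (n + 1)) := by
        apply one_le_pow₀
        exact_mod_cast (by omega : 1 ≤ i + 2)
      exact one_le_mul_of_one_le_of_one_le hC this
    refine h3.trans ((le_of_eq ?_).trans ((le_abs_self _).trans hi))
    rw [Real.log_mul (by linarith) (by positivity), Real.log_pow]
    push_cast
    ring)
  refine ⟨C', hC', fun j => ?_⟩
  rw [Nat.cast_prod]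
  exact h j

theorem growth_M (ε : ℝ) (hε : 0 < ε) :
    ∃ C' : ℝ, 0 < C' ∧ ∀ j : ℕ, (j : ℝ) + 2 ≤ C' * (Q j : ℝ) ^ ε := by
  obtain ⟨C', hC', h⟩ := growth (fun i => ((i : ℝ) + 3) / (i + 2)) (fun i => by positivity) ε hε (by
    have h1 := (tendsto_rpow_atTop hε).comp tendsto_add_two
    filter_upwards [h1.eventually_ge_atTop 2] with i hi
    simp only [Function.comp] at hi
    refine le_trans ?_ hi
    rw [div_le_iff₀ (by positivity)]
    have : (0 : ℝ) ≤ i := Nat.cast_nonneg i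
    linarith)
  refine ⟨2 * C', by positivity, fun j => ?_⟩
  have h2 : ∀ j : ℕ, ∏ l ∈ Finset.range j, (((l : ℝ) + 3) / (l + 2)) = ((j : ℝ) + 2) / 2 := by
    intro j
    induction j with
    | zero => simp
    | succ j ih =>
      rw [Finset.prod_range_succ, ih]
      push_cast
      have : (j : ℝ) + 2 ≠ 0 := by positivity
      field_simp
      ring
  have h3 := h j
  rw [h2] at h3
  linarith

theorem exists_scale {w : ℝ} (hw : 0 < w) (hw1 : w ≤ 1) :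
    ∃ j, Q j * w ≤ 1 ∧ 1 < Q (j + 1) * w := by
  classical
  have hex : ∃ j, 1 < (Q (j + 1) : ℝ) * w := by
    obtain ⟨N, hN⟩ := exists_nat_gt (1 / w)
    refine ⟨N, ?_⟩
    rw [div_lt_iff₀ hw] at hN
    have h1 : (N : ℝ) ≤ Q (N + 1) := by
      have : N ≤ Q (N + 1) := le_trans (by omega) (Nat.self_le_factorial (N + 1 + 1))
      exact_mod_cast this
    nlinarith
  refine ⟨Nat.find hex, ?_, Nat.find_spec hex⟩
  rcases Nat.eq_zero_or_pos (Nat.find hex) with h | h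
  · rw [h, Q_zero]
    simpa using hw1
  · have h1 := Nat.find_min hex (m := Nat.find hex - 1) (by omega)
    rw [not_lt, Nat.sub_add_cancel h] at h1
    exact h1

/-- the final numerical estimate -/
theorem numeric {C : ℝ} (hC : 1 ≤ C) (n : ℕ) (s : ℝ) (hs0 : 0 ≤ s) (hs : s < n) :
    ∃ C' : ℝ, 0 < C' ∧ ∀ w : ℝ, 0 < w → w ≤ 1 → ∃ j, Q j * w ≤ 1 ∧
      ((∏ l ∈ Finset.range j, nb C n l : ℕ) : ℝ) * (((n : ℝ) + 1) / Q j) ^ n ≤ C' * w ^ s := by
  have hn : (0 : ℝ) < n := lt_of_le_of_lt hs0 hs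
  set ε : ℝ := (n - s) / (1 + n) with hεd
  have hε : 0 < ε := div_pos (by linarith) (by linarith)
  have hεs : ε * (1 + s) ≤ n - s := by
    have h1 : ε * (1 + n) = n - s := by
      rw [hεd]; field_simp
    have h2 : ε * (1 + s) ≤ ε * (1 + n) := mul_le_mul_of_nonneg_left (by linarith) hε.le
    linarith
  obtain ⟨C1, hC1, h1⟩ := growth_nb hC n ε hε
  obtain ⟨C2, hC2, h2⟩ := growth_M ε hε
  refine ⟨C1 * (n + 1) ^ n * C2 ^ s, by positivity, ?_⟩
  intro w hw hw1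
  obtain ⟨j, hj1, hj2⟩ := exists_scale hw hw1
  refine ⟨j, hj1, ?_⟩
  have hQ := Qr_pos j
  have hQ1 := Qr_one j
  -- `Q^{-(1+ε)} ≤ C2 w`
  have h3 : (Q j : ℝ) ^ (-(1 + ε)) ≤ C2 * w := by
    rw [Real.rpow_neg hQ.le, inv_le_iff_one_le_mul₀ (by positivity), Real.rpow_add hQ,
      Real.rpow_one]
    have h4 := h2 j
    rw [Qr_succ] at hj2
    have h5 : ((j : ℝ) + 2) * Q j * w ≤ (C2 * (Q j : ℝ) ^ ε) * Q j * w :=
      mul_le_mul_of_nonneg_right (mul_le_mul_of_nonneg_right h4 hQ.le) hw.le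
    calc (1 : ℝ) ≤ (C2 * (Q j : ℝ) ^ ε) * Q j * w := hj2.le.trans h5
      _ = C2 * w * (Q j * (Q j : ℝ) ^ ε) := by ring
  have h4 : ((Q j : ℝ) ^ (-(1 + ε))) ^ s ≤ (C2 * w) ^ s :=
    Real.rpow_le_rpow (by positivity) h3 hs0
  rw [← Real.rpow_mul hQ.le, Real.mul_rpow hC2.le hw.le] at h4
  have h5 : (Q j : ℝ) ^ (ε - n) ≤ (Q j : ℝ) ^ (-(1 + ε) * s) := by
    apply Real.rpow_le_rpow_of_exponent_le hQ1
    nlinarith
  have h6 : (Q j : ℝ) ^ ε * (1 / Q j) ^ n = (Q j : ℝ) ^ (ε - n) := by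
    rw [Real.rpow_sub hQ, Real.rpow_natCast, one_div, inv_pow]
    rfl
  calc ((∏ l ∈ Finset.range j, nb C n l : ℕ) : ℝ) * (((n : ℝ) + 1) / Q j) ^ n
      ≤ (C1 * (Q j : ℝ) ^ ε) * (((n : ℝ) + 1) / Q j) ^ n :=
        mul_le_mul_of_nonneg_right (h1 j) (by positivity)
    _ = C1 * (n + 1) ^ n * ((Q j : ℝ) ^ ε * (1 / Q j) ^ n) := by
        rw [div_eq_mul_one_div, mul_pow]; ring
    _ = C1 * (n + 1) ^ n * (Q j : ℝ) ^ (ε - n) := by rw [h6]
    _ ≤ C1 * (n + 1) ^ n * (C2 ^ s * w ^ s) :=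
        mul_le_mul_of_nonneg_left (h5.trans h4) (by positivity)
    _ = C1 * (n + 1) ^ n * C2 ^ s * w ^ s := by ring

end Pool.Agent.V1146.TB
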