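import Mathlib
import Pool.Agent.V1146.TB.Growth

set_option autoImplicit false

open MeasureTheory Filter

namespace Pool.Agent.V1146.TB

variable {n : ℕ}

/-- the piece of the graph over one column -/
def piece (g : ℕ → (Fin n → ℕ) → ℕ) (j : ℕ) (α : Fin n → ℕ) :
    Set (EuclideanSpace ℝ (Fin (n + 1))) :=
  pt g '' {x | x ∈ cube n ∧ ad j x = α}

theorem dist_piece (g : ℕ → (Fin n → ℕ) → ℕ) (hg : ∀ j u, g j u < j + 2) (j : ℕ)
    (α : Fin n → ℕ) {y y' : EuclideanSpace ℝ (Fin (n + 1))} (hy : y ∈ piece g j α)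
    (hy' : y' ∈ piece g j α) : dist y y' ≤ ((n : ℝ) + 1) / Q j := by
  obtain ⟨x, ⟨hx, hxα⟩, rfl⟩ := hy
  obtain ⟨x', ⟨hx', hxα'⟩, rfl⟩ := hy'
  have hQ := Qr_pos j
  have h1 : ∀ k, dist (pt g x k) (pt g x' k) ^ 2 ≤ (1 / (Q j : ℝ)) ^ 2 := by
    intro k
    apply pow_le_pow_left₀ dist_nonneg
    have e1 := cell_bounds g hg hx j k
    have e2 := cell_bounds g hg hx' j k
    rw [hxα] at e1
    rw [hxα'] at e2
    rw [Real.dist_eq, le_div_iff₀ hQ]
    have : |pt g x k - pt g x' k| * (Q j : ℝ) = |(Q j : ℝ) * pt g x k - Q j * pt g x' k| := by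
      rw [← mul_sub, abs_mul, abs_of_pos hQ, mul_comm]
    rw [this, abs_le]
    constructor <;> linarith [e1.1, e1.2, e2.1, e2.2]
  rw [EuclideanSpace.dist_eq]
  apply Real.sqrt_le_iff.mpr
  refine ⟨by positivity, ?_⟩
  calc ∑ k, dist (pt g x k) (pt g x' k) ^ 2 ≤ ∑ _k : Fin (n + 1), (1 / (Q j : ℝ)) ^ 2 :=
        Finset.sum_le_sum fun k _ => h1 k
    _ = ((n : ℝ) + 1) * (1 / (Q j : ℝ)) ^ 2 := by
        rw [Finset.sum_const, Finset.card_univ, Fintype.card_fin, nsmul_eq_mul]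
        push_cast
        ring
    _ ≤ ((n : ℝ) + 1) ^ 2 * (1 / (Q j : ℝ)) ^ 2 := by
        apply mul_le_mul_of_nonneg_right _ (by positivity)
        have : (0 : ℝ) ≤ n := Nat.cast_nonneg n
        nlinarith
    _ = (((n : ℝ) + 1) / Q j) ^ 2 := by ring

theorem ediam_piece (g : ℕ → (Fin n → ℕ) → ℕ) (hg : ∀ j u, g j u < j + 2) (j : ℕ)
    (α : Fin n → ℕ) : Metric.ediam (piece g j α) ≤ ENNReal.ofReal (((n : ℝ) + 1) / Q j) := by
  apply Metric.ediam_le
  intro y hy y' hy'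
  rw [edist_dist]
  exact ENNReal.ofReal_le_ofReal (dist_piece g hg j α hy hy')

theorem Q_dvd {j l : ℕ} (h : j ≤ l) : Q j ∣ Q l := Nat.factorial_dvd_factorial (by omega)

theorem ad_div_gen {j l : ℕ} (h : j ≤ l) (x : Fin n → ℝ) (k : Fin n) :
    ad l x k / (Q l / Q j) = ad j x k := by
  unfold ad
  have h1 := Nat.floor_div_natCast ((Q l : ℝ) * x k) (Q l / Q j)
  rw [← h1]
  congr 1
  rw [Nat.cast_div (Q_dvd h) (Qr_pos j).ne']
  have h2 := (Qr_pos j).ne'
  have h3 := (Qr_pos l).ne'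
  field_simp

theorem tendsto_Q : Tendsto (fun l => (Q l : ℝ)) atTop atTop := by
  apply tendsto_atTop_mono (f := fun l : ℕ => (l : ℝ)) _ tendsto_natCast_atTop_atTop
  intro l
  have : l ≤ Q l := le_trans (by omega) (Nat.self_le_factorial (l + 1))
  exact_mod_cast this

theorem haus_piece (g : ℕ → (Fin n → ℕ) → ℕ) (hg : ∀ j u, g j u < j + 2) (j : ℕ)
    (α : Fin n → ℕ) :
    Measure.hausdorffMeasure (n : ℝ) (piece g j α) ≤
      ENNReal.ofReal ((((n : ℝ) + 1) / Q j) ^ n) := by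
  have hr : Tendsto (fun l : ℕ => ENNReal.ofReal (((n : ℝ) + 1) / Q l)) atTop (nhds 0) := by
    rw [← ENNReal.ofReal_zero]
    exact ENNReal.tendsto_ofReal (tendsto_Q.const_div_atTop _)
  have hcov : ∀ᶠ l in atTop, piece g j α ⊆ ⋃ i : Fin n → Fin (Q l / Q j),
      piece g l (fun k => α k * (Q l / Q j) + i k) := by
    filter_upwards [eventually_ge_atTop j] with l hl
    rintro _ ⟨x, ⟨hx, hxα⟩, rfl⟩
    have hR : 0 < Q l / Q j := Nat.div_pos (Q_mono hl) (Q_pos j)
    rw [Set.mem_iUnion]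
    refine ⟨fun k => ⟨ad l x k % (Q l / Q j), Nat.mod_lt _ hR⟩, x, ⟨hx, ?_⟩, rfl⟩
    funext k
    simp only
    rw [← hxα, ← ad_div_gen hl x k, mul_comm]
    exact (Nat.div_add_mod _ _).symm
  refine (Measure.hausdorffMeasure_le_liminf_sum (n : ℝ) (piece g j α) _ hr
    (fun l (i : Fin n → Fin (Q l / Q j)) => piece g l (fun k => α k * (Q l / Q j) + i k))
    (Eventually.of_forall fun l i => ediam_piece g hg l _) hcov).trans ?_
  have hle : ∀ᶠ l in atTop, ∑ i : Fin n → Fin (Q l / Q j),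
      Metric.ediam (piece g l (fun k => α k * (Q l / Q j) + i k)) ^ (n : ℝ) ≤
      ENNReal.ofReal ((((n : ℝ) + 1) / Q j) ^ n) := by
    filter_upwards [eventually_ge_atTop j] with l hl
    calc ∑ i : Fin n → Fin (Q l / Q j),
          Metric.ediam (piece g l (fun k => α k * (Q l / Q j) + i k)) ^ (n : ℝ)
        ≤ ∑ _i : Fin n → Fin (Q l / Q j), ENNReal.ofReal ((((n : ℝ) + 1) / Q l) ^ n) := by
          apply Finset.sum_le_sum
          intro i _
          rw [ENNReal.rpow_natCast, ENNReal.ofReal_pow (by positivity)]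
          exact pow_le_pow_left' (ediam_piece g hg l _) n
      _ = ENNReal.ofReal ((((n : ℝ) + 1) / Q j) ^ n) := by
          rw [Finset.sum_const, Finset.card_univ, Fintype.card_fun, Fintype.card_fin,
            Fintype.card_fin, nsmul_eq_mul, ← ENNReal.ofReal_natCast,
            ← ENNReal.ofReal_mul (Nat.cast_nonneg _)]
          congr 1
          rw [Nat.cast_pow, Nat.cast_div (Q_dvd hl) (Qr_pos j).ne', ← mul_pow]
          have h2 := (Qr_pos j).ne'
          have h3 := (Qr_pos l).ne'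
          congr 1
          field_simp
  calc _ ≤ liminf (fun _ : ℕ => ENNReal.ofReal ((((n : ℝ) + 1) / Q j) ^ n)) atTop :=
        liminf_le_liminf hle
    _ = _ := liminf_const _

/-- the set -/
def KK (g : ℕ → (Fin n → ℕ) → ℕ) : Set (EuclideanSpace ℝ (Fin (n + 1))) := pt g '' cube n

theorem KK_lt_top (g : ℕ → (Fin n → ℕ) → ℕ) (hg : ∀ j u, g j u < j + 2) :
    Measure.hausdorffMeasure (n : ℝ) (KK g) ≤ ENNReal.ofReal (((n : ℝ) + 1) ^ n) := by
  have h1 : KK g ⊆ piece g 0 (fun _ => 0) := by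
    rintro _ ⟨x, hx, rfl⟩
    refine ⟨x, ⟨hx, ?_⟩, rfl⟩
    have := ad_mem_cols hx 0
    rw [mem_cols, Q_zero] at this
    funext k
    exact Nat.lt_one_iff.mp (this k)
  refine (measure_mono h1).trans ((haus_piece g hg 0 _).trans ?_)
  rw [Q_zero]
  simp

theorem inter_le (g : ℕ → (Fin n → ℕ) → ℕ) (hg : ∀ j u, g j u < j + 2)
    (T : Set (EuclideanSpace ℝ (Fin (n + 1)))) (j : ℕ) :
    Measure.hausdorffMeasure (n : ℝ) (KK g ∩ T) ≤
      ENNReal.ofReal (((occ g T j).card : ℝ) * (((n : ℝ) + 1) / Q j) ^ n) := by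
  have h1 : KK g ∩ T ⊆ ⋃ α ∈ occ g T j, piece g j α := by
    rintro _ ⟨⟨x, hx, rfl⟩, hT⟩
    rw [Set.mem_iUnion₂]
    exact ⟨ad j x, mem_occ.mpr ⟨x, hx, hT, rfl⟩, x, ⟨hx, rfl⟩, rfl⟩
  refine (measure_mono h1).trans ((measure_biUnion_finset_le _ _).trans ?_)
  calc ∑ α ∈ occ g T j, Measure.hausdorffMeasure (n : ℝ) (piece g j α)
      ≤ ∑ _α ∈ occ g T j, ENNReal.ofReal ((((n : ℝ) + 1) / Q j) ^ n) :=
        Finset.sum_le_sum fun α _ => haus_piece g hg j α
    _ = _ := by
        rw [Finset.sum_const, nsmul_eq_mul, ENNReal.ofReal_mul (Nat.cast_nonneg _),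
          ENNReal.ofReal_natCast]

/-- projection to the first `n` coordinates -/
def pr (n : ℕ) (y : EuclideanSpace ℝ (Fin (n + 1))) : Fin n → ℝ := fun k => y k.castSucc

theorem pr_lip (n : ℕ) : LipschitzWith 1 (pr n) := by
  apply LipschitzWith.of_dist_le_mul
  intro x y
  rw [NNReal.coe_one, one_mul, dist_pi_le_iff dist_nonneg]
  intro k
  rw [dist_eq_norm, dist_eq_norm]
  exact PiLp.norm_apply_le (x - y) k.castSucc

theorem pr_pt (g : ℕ → (Fin n → ℕ) → ℕ) (x : Fin n → ℝ) : pr n (pt g x) = x := by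
  funext k
  exact pt_castSucc g x k

theorem KK_pos (g : ℕ → (Fin n → ℕ) → ℕ) :
    0 < Measure.hausdorffMeasure (n : ℝ) (KK g) := by
  have h1 : pr n '' (KK g) = cube n := by
    ext x
    constructor
    · rintro ⟨_, ⟨x', hx', rfl⟩, rfl⟩
      rw [pr_pt]; exact hx'
    · intro hx
      exact ⟨pt g x, ⟨x, hx, rfl⟩, pr_pt g x⟩
  have h2 := (pr_lip n).hausdorffMeasure_image_le (d := (n : ℝ)) (Nat.cast_nonneg n) (KK g)
  rw [h1] at h2
  have h3 : (Measure.hausdorffMeasure (n : ℝ) : Measure (Fin n → ℝ)) = volume := by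
    have := @hausdorffMeasure_pi_real (Fin n) _
    rwa [Fintype.card_fin] at this
  rw [h3, cube, Real.volume_pi_Ico] at h2
  simp only [sub_zero, ENNReal.ofReal_one, Finset.prod_const_one, ENNReal.coe_one,
    ENNReal.one_rpow, one_mul] at h2
  exact lt_of_lt_of_le one_pos h2

theorem measurable_ad (j : ℕ) : Measurable (fun x : Fin n → ℝ => ad j x) := by
  rw [measurable_pi_iff]
  intro k
  unfold ad
  exact Nat.measurable_floor.comp ((measurable_pi_apply k).const_mul _)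

theorem measurable_fx (g : ℕ → (Fin n → ℕ) → ℕ) : Measurable (fx g) := by
  unfold fx
  apply Measurable.iSup
  intro j
  unfold lo bx
  apply Measurable.div_const
  exact (measurable_of_countable (fun m : Fin n → ℕ => (hb g j m : ℝ))).comp (measurable_ad j)

theorem measurable_KK (g : ℕ → (Fin n → ℕ) → ℕ) : MeasurableSet (KK g) := by
  have h1 : KK g = {y | pr n y ∈ cube n} ∩ {y | y (Fin.last n) = fx g (pr n y)} := by
    ext y
    constructor
    · rintro ⟨x, hx, rfl⟩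
      refine ⟨?_, ?_⟩
      · change pr n (pt g x) ∈ cube n
        rw [pr_pt]; exact hx
      · change pt g x (Fin.last n) = fx g (pr n (pt g x))
        rw [pr_pt]; exact pt_last g x
    · rintro ⟨h1, h2⟩
      refine ⟨pr n y, h1, ?_⟩
      ext k
      refine Fin.lastCases ?_ (fun k => ?_) k
      · rw [pt_last]; exact h2.symm
      · rw [pt_castSucc]; rfl
  rw [h1]
  have hpr : Measurable (pr n) := (pr_lip n).continuous.measurable
  apply MeasurableSet.inter
  · apply hpr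
    exact MeasurableSet.univ_pi fun _ => measurableSet_Ico
  · apply measurableSet_eq_fun
    · exact (EuclideanSpace.proj (𝕜 := ℝ) (Fin.last n)).continuous.measurable
    · exact (measurable_fx g).comp hpr

/-- normal form of tubes -/
theorem tube_normal (p v : EuclideanSpace ℝ (Fin (n + 1))) (hv : v ≠ 0) (w : ℝ) (hw : 0 < w) :
    ∃ (i : Fin (n + 1)) (v' q : Fin (n + 1) → ℝ), (∀ k, |v' k| ≤ 1) ∧
      ∀ y ∈ {y | Metric.infDist y {z | ∃ t : ℝ, z = p + t • v} ≤ w / 2},
        ∀ k, k ≠ i → |y k - q k - y i * v' k| ≤ 2 * w := by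
  obtain ⟨i, _, hi⟩ := Finset.exists_max_image (Finset.univ : Finset (Fin (n + 1)))
    (fun k => |v k|) ⟨0, Finset.mem_univ _⟩
  have hvi : 0 < |v i| := by
    by_contra h
    apply hv
    ext k
    have := hi k (Finset.mem_univ k)
    have h2 : |v k| = 0 := le_antisymm (this.trans (not_lt.mp h)) (abs_nonneg _)
    simpa using h2
  have hvi0 : v i ≠ 0 := abs_pos.mp hvi
  refine ⟨i, fun k => v k / v i, fun k => p k - p i * (v k / v i), ?_, ?_⟩
  · intro k
    rw [abs_div, div_le_one hvi]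
    exact hi k (Finset.mem_univ k)
  · intro y hy k _
    have hlt : Metric.infDist y {z | ∃ t : ℝ, z = p + t • v} < w :=
      lt_of_le_of_lt hy (by linarith)
    have hne : ({z | ∃ t : ℝ, z = p + t • v} : Set (EuclideanSpace ℝ (Fin (n + 1)))).Nonempty :=
      ⟨p, 0, by simp⟩
    rw [Metric.infDist_lt_iff hne] at hlt
    obtain ⟨z, ⟨t, rfl⟩, hz⟩ := hlt
    have hc : ∀ k, |y k - (p k + t * v k)| ≤ w := by
      intro k
      rw [dist_eq_norm] at hz
      have := (PiLp.norm_apply_le (y - (p + t • v)) k).trans hz.le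
      simpa using this
    have h1 := hc k
    have h2 : |(y i - (p i + t * v i)) * (v k / v i)| ≤ w := by
      rw [abs_mul]
      have h3 : |v k / v i| ≤ 1 := by
        rw [abs_div, div_le_one hvi]
        exact hi k (Finset.mem_univ k)
      calc _ ≤ w * 1 := mul_le_mul (hc i) h3 (abs_nonneg _) hw.le
        _ = w := mul_one w
    have e : y k - (p k - p i * (v k / v i)) - y i * (v k / v i) =
        (y k - (p k + t * v k)) - (y i - (p i + t * v i)) * (v k / v i) := by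
      field_simp
      ring
    rw [e]
    have h1' := abs_le.mp h1
    have h2' := abs_le.mp h2
    rw [abs_le]
    constructor <;> linarith

/-- **main theorem**, ambient dimension `n + 1` -/
theorem main (n : ℕ) : ∃ K : Set (EuclideanSpace ℝ (Fin (n + 1))), MeasurableSet K ∧
    0 < Measure.hausdorffMeasure (n : ℝ) K ∧ Measure.hausdorffMeasure (n : ℝ) K < ⊤ ∧
    ∀ s : ℝ, s < n → ∃ C : ℝ, ∀ (p v : EuclideanSpace ℝ (Fin (n + 1))) (w : ℝ), v ≠ 0 → 0 < w →
      (0 ≤ s ∨ w ≤ 1) →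
      Measure.hausdorffMeasure (n : ℝ)
        (K ∩ {y | Metric.infDist y {z | ∃ t : ℝ, z = p + t • v} ≤ w / 2}) ≤
        ENNReal.ofReal (C * w ^ s) := by
  obtain ⟨C0, hC0, g, hg⟩ := exists_good n
  have hg' : ∀ j u, g j u < j + 2 := fun j u => (hg j).1 u
  refine ⟨KK g, measurable_KK g, KK_pos g, lt_of_le_of_lt (KK_lt_top g hg') ENNReal.ofReal_lt_top,
    ?_⟩
  -- the nonnegative exponents
  have hnn : ∀ s : ℝ, 0 ≤ s → s < n → ∃ C : ℝ, 0 < C ∧
      ∀ (p v : EuclideanSpace ℝ (Fin (n + 1))) (w : ℝ), v ≠ 0 → 0 < w →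
      Measure.hausdorffMeasure (n : ℝ)
        (KK g ∩ {y | Metric.infDist y {z | ∃ t : ℝ, z = p + t • v} ≤ w / 2}) ≤
        ENNReal.ofReal (C * w ^ s) := by
    intro s hs0 hs
    obtain ⟨C', hC', hnum⟩ := numeric hC0 n s hs0 hs
    refine ⟨C' + (n + 1) ^ n, by positivity, ?_⟩
    intro p v w hv hw
    rcases le_total w 1 with hw1 | hw1
    · obtain ⟨j, hj1, hj2⟩ := hnum w hw hw1
      obtain ⟨i, v', q, hv', hT⟩ := tube_normal p v hv w hw
      have hocc := occ_card hC0 g hg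
        {y | Metric.infDist y {z | ∃ t : ℝ, z = p + t • v} ≤ w / 2} i v' q hv' (2 * w)
        (by linarith) hT j (by linarith)
      refine (inter_le g hg' _ j).trans (ENNReal.ofReal_le_ofReal ?_)
      have hocc' : ((occ g {y | Metric.infDist y {z | ∃ t : ℝ, z = p + t • v} ≤ w / 2} j).card : ℝ)
          ≤ ((∏ l ∈ Finset.range j, nb C0 n l : ℕ) : ℝ) := by exact_mod_cast hocc
      have hQ := Qr_pos j
      refine ((mul_le_mul_of_nonneg_right hocc' (by positivity)).trans hj2).trans ?_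
      apply mul_le_mul_of_nonneg_right _ (by positivity)
      have : (0 : ℝ) ≤ ((n : ℝ) + 1) ^ n := by positivity
      linarith
    · refine ((measure_mono Set.inter_subset_left).trans (KK_lt_top g hg')).trans
        (ENNReal.ofReal_le_ofReal ?_)
      have h1 : (1 : ℝ) ≤ w ^ s := Real.one_le_rpow hw1 hs0
      have h2 : (0 : ℝ) ≤ ((n : ℝ) + 1) ^ n := by positivity
      nlinarith [mul_le_mul_of_nonneg_left h1 (by linarith : 0 ≤ C' + ((n : ℝ) + 1) ^ n)]
  intro s hs
  rcases le_or_gt 0 s with hs0 | hs0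
  · obtain ⟨C, _, hC⟩ := hnn s hs0 hs
    exact ⟨C, fun p v w hv hw _ => hC p v w hv hw⟩
  · have hn0 : (0 : ℝ) ≤ n := Nat.cast_nonneg n
    refine ⟨(n + 1) ^ n, fun p v w hv hw hor => ?_⟩
    have hw1 : w ≤ 1 := by
      rcases hor with h | h
      · exact absurd h (not_le.mpr hs0)
      · exact h
    refine ((measure_mono Set.inter_subset_left).trans (KK_lt_top g hg')).trans
        (ENNReal.ofReal_le_ofReal ?_)
    have h1 : (1 : ℝ) ≤ w ^ s := Real.one_le_rpow_of_pos_of_le_one_of_nonpos hw hw1 hs0.le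
    have h2 : (0 : ℝ) ≤ ((n : ℝ) + 1) ^ n := by positivity
    nlinarith [mul_le_mul_of_nonneg_left h1 h2]

end Pool.Agent.V1146.TB
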